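import Mathlib
import Pool.Agent.H129Z.SubMain

set_option autoImplicit false

namespace Pool.Agent.Results.MP_74c05d_an.Characterization

open Pool.Agent.H129Z.Sub

theorem result (n : ℕ) (C : Set (EuclideanSpace ℝ (Fin n))) (hne : C.Nonempty)
    (hC : NearlyConvex C) :
    List.TFAE
      [∃ f : EuclideanSpace ℝ (Fin n) → EReal, ProperLscConvex f ∧ dom (subdiff f) = C,
       ∃ f : EuclideanSpace ℝ (Fin n) → EReal, ProperLscConvex f ∧ ran (subdiff f) = C,
       ∃ A : EuclideanSpace ℝ (Fin n) → Set (EuclideanSpace ℝ (Fin n)),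
         MaxMonotoneOp A ∧ dom A = C,
       ∃ A : EuclideanSpace ℝ (Fin n) → Set (EuclideanSpace ℝ (Fin n)),
         MaxMonotoneOp A ∧ ran A = C,
       IsFsigma C] :=
  tfae hne hC

end Pool.Agent.Results.MP_74c05d_an.Characterization
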